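import Mathlib
import Pool.Agent.R863.CS.Asm
import Pool.Agent.R863.CS.ADAPT
import Pool.Agent.R863.CS.CH
import Pool.Agent.R863.CS.CT3
import Pool.Agent.R863.CS.CT5
import Pool.Agent.R863.CS.CUB
import Pool.Agent.R863.CS.DIST
import Pool.Agent.R863.CS.E0
import Pool.Agent.R863.CS.E12
import Pool.Agent.R863.CS.E16A
import Pool.Agent.R863.CS.E16B
import Pool.Agent.R863.CS.EXH
import Pool.Agent.R863.CS.FIN5
import Pool.Agent.R863.CS.GAUSS
import Pool.Agent.R863.CS.IN
import Pool.Agent.R863.CS.LA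
import Pool.Agent.R863.CS.LN3B
import Pool.Agent.R863.CS.LN3C
import Pool.Agent.R863.CS.LN5B
import Pool.Agent.R863.CS.LN5C
import Pool.Agent.R863.CS.NF1
import Pool.Agent.R863.CS.NF2
import Pool.Agent.R863.CS.PL
import Pool.Agent.R863.CS.QF
import Pool.Agent.R863.CS.SM
import Pool.Agent.R863.CS.SPL
import Pool.Agent.R863.CS.TR
import Pool.Agent.R863.CS.TRI
import Pool.Agent.R863.CS.TX
import Pool.Agent.R863.CS.TY3
import Pool.Agent.R863.CS.TY5N
import Pool.Agent.R863.CS.TY5M
import Pool.Agent.R863.CS.W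

/-!
# Hyperbolic and elliptic lines on split cubic surfaces over finite fields

For a finite field `K` of odd characteristic with `q` elements we determine the pairs `(H, E)` of
the numbers of hyperbolic and elliptic lines on smooth cubic surfaces over `K` all of whose 27
lines are defined over `K`.
-/

set_option autoImplicit false

open Pool.Agent.R863.CS MvPolynomial

namespace Pool.Agent.Results.MP_f18d96_ag.LineTypes

/-- **The possible numbers of hyperbolic and elliptic lines on split cubic surfaces.** -/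
theorem result (K : Type) [Field K] [Finite K] (h2 : (2 : K) ≠ 0) :
    {n : ℕ × ℕ | ∃ F : MvPolynomial (Fin 4) K, IsSplit F ∧ (Hyp F).ncard = n.1 ∧
        (Ell F).ncard = n.2} =
      if Nat.card K < 7 then ∅ else if Nat.card K < 9 then {(27, 0)}
      else if Nat.card K < 17 then {(27, 0), (15, 12)} else {(27, 0), (15, 12), (11, 16)} := by
  have hTX := t_TX
  have hLA := t_LA
  have hCH := t_CH
  have hTR := t_TR hTX
  have hTRANS := t_TRANS
  have hLN5 := t_LN5 t_W t_LN5B t_LN5C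
  have hLN3 := t_LN3 t_W t_LN3B t_LN3C
  have hG := t_GAUSS t_QF hLA
  exact asm hTR hTRANS (t_NF1 hLA hCH hTX hTRANS t_COEF t_ADAPT)
    (t_NF2 hLA hTX hTR hTRANS t_DIST5 t_DIST3 hLN5 hLN3)
    (t_TRI hLA hCH hTX t_COEF t_ADAPT t_PL)
    (t_EXH hLA hCH hTX t_CUB hG)
    (t_SPL5 hLA t_SM5 hLN5 t_IN5) (t_SPL3 hLA t_SM3 hLN3 t_IN3) t_IN5 t_IN3
    (t_TY5 t_TY0 (t_TY5M hG) (t_TY5N hG)) (t_TY3 hG t_TY0) t_CT5 t_CT3 t_FIN5 t_FIN3
    t_E0 t_E12 t_E16A t_E16B K h2

end Pool.Agent.Results.MP_f18d96_ag.LineTypes
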